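import Pool.Agent.Helper93.TCU.Stmts
import Pool.Agent.Helper93.TCU.Bas

/-!
# C4: the weight of the chosen options
-/

set_option autoImplicit false

namespace Pool.TCU

open Pool.TC Pool.TCM Pool.TCS Finset
open scoped Classical

/-- the sum over the letters of one coordinate is the row sum -/
private theorem C4_row {V κ : Type} [Fintype V] [Fintype κ] {U : Finset V} {L : V → Finset κ}
    {l : ℕ} {e : V → Fin l → κ} (he : Enu U L l e) (g : V → κ → ℝ) {t : V} (ht : t ∈ U) :
    ∑ i, g t (e t i) = ∑ b ∈ L t, g t b := by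
  have h1 : L t = univ.image (e t) := by
    ext b
    rw [mem_image, he.mem t ht b]
    constructor
    · rintro ⟨i, hi⟩
      exact ⟨i, mem_univ _, hi⟩
    · rintro ⟨i, -, hi⟩
      exact ⟨i, hi⟩
  rw [h1, sum_image fun i _ j _ hij => he.inj t ht hij]

theorem thm_C4 (hB : Pool.TCT.St_BernL) : St_C4 := by
  intro V κ _ _ U L l Lam μ e T he hl hLam hμ hT hTμ
  have hl' : (0 : ℝ) < l := by exact_mod_cast hl
  have hnm : 0 ≤ nm U L T := sum_nonneg fun w _ => sum_nonneg fun b _ => hT w b
  rcases hμ.lt_or_eq with hμ0 | hμ0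
  · have : Nonempty (Fin l) := ⟨⟨0, hl⟩⟩
    obtain ⟨f, hf⟩ : ∃ f : V → Fin l → ℝ, f = fun t i => if t ∈ U then T t (e t i) else 0 :=
      ⟨_, rfl⟩
    have hf0 : ∀ t i, 0 ≤ f t i := by
      intro t i
      rw [hf]
      dsimp only
      split_ifs
      · exact hT _ _
      · exact le_refl _
    have hf1 : ∀ t i, f t i ≤ μ := by
      intro t i
      rw [hf]
      dsimp only
      split_ifs
      · exact hTμ _ _
      · exact hμ
    have hsum : ∑ t, ∑ i, f t i = nm U L T := by
      unfold nm
      rw [← sum_filter_add_sum_filter_not univ (fun t => t ∈ U)]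
      have h1 : ∑ t ∈ univ.filter (fun t => ¬ t ∈ U), ∑ i, f t i = 0 := by
        refine sum_eq_zero fun t ht => sum_eq_zero fun i _ => ?_
        rw [hf]
        exact if_neg (mem_filter.1 ht).2
      have h2 : univ.filter (fun t => t ∈ U) = U := by
        ext t
        simp
      rw [h1, add_zero, h2]
      refine sum_congr rfl fun t ht => ?_
      rw [← C4_row he T ht]
      refine sum_congr rfl fun i _ => ?_
      rw [hf]
      exact if_pos ht
    obtain ⟨W, hW⟩ : ∃ W : ℝ, W = μ * nm U L T / l + Lam * μ ^ 2 := ⟨_, rfl⟩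
    have hW1 : Lam * μ ^ 2 ≤ W := by
      rw [hW]
      have : 0 ≤ μ * nm U L T / l := by positivity
      linarith
    have hsq : (∑ t, ∑ i, f t i ^ 2) ≤ W * Fintype.card (Fin l) := by
      have h1 : (∑ t, ∑ i, f t i ^ 2) ≤ ∑ t, ∑ i, μ * f t i := by
        refine sum_le_sum fun t _ => sum_le_sum fun i _ => ?_
        rw [pow_two]
        exact mul_le_mul_of_nonneg_right (hf1 t i) (hf0 t i)
      have h2 : ∑ t, ∑ i, μ * f t i = μ * nm U L T := by
        rw [← hsum, mul_sum]
        exact sum_congr rfl fun t _ => (mul_sum _ _ _).symm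
      have h3 : W * Fintype.card (Fin l) = μ * nm U L T + Lam * μ ^ 2 * l := by
        rw [hW, Fintype.card_fin]
        field_simp
      have h4 : 0 ≤ Lam * μ ^ 2 * l := by positivity
      linarith
    have key := hB V (Fin l) f μ W Lam hμ0 hLam hW1
      (fun t i => by rw [abs_of_nonneg (hf0 t i)]; exact hf1 t i) hsq
    refine le_trans ?_ key
    have hsub : univ.filter (fun ω : V → Fin l => nm U L T / l +
        3 * Real.sqrt ((μ * nm U L T / l + Lam * μ ^ 2) * Lam) < ∑ w ∈ U, T w (oc e ω w)) ⊆
        univ.filter (fun ω : V → Fin l => (∑ t, ∑ a, f t a) / Fintype.card (Fin l) +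
          3 * Real.sqrt (W * Lam) ≤ ∑ t, f t (ω t)) := by
      intro ω hω
      rw [mem_filter] at hω ⊢
      refine ⟨mem_univ _, ?_⟩
      have h1 := hω.2
      rw [hsum, Fintype.card_fin, hW]
      refine h1.le.trans (le_of_eq ?_)
      rw [← sum_filter_add_sum_filter_not univ (fun t => t ∈ U) (fun t => f t (ω t))]
      have h3 : ∑ t ∈ univ.filter (fun t => ¬ t ∈ U), f t (ω t) = 0 := by
        refine sum_eq_zero fun t ht => ?_
        rw [hf]
        exact if_neg (mem_filter.1 ht).2
      have h2 : univ.filter (fun t => t ∈ U) = U := by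
        ext t
        simp
      rw [h3, add_zero, h2]
      refine sum_congr rfl fun t ht => ?_
      rw [hf]
      exact (if_pos ht).symm
    exact_mod_cast card_le_card hsub
  · have hT0 : ∀ w b, T w b = 0 := fun w b =>
      le_antisymm ((hTμ w b).trans hμ0.symm.le) (hT w b)
    have hemp : univ.filter (fun ω : V → Fin l => nm U L T / l +
        3 * Real.sqrt ((μ * nm U L T / l + Lam * μ ^ 2) * Lam) < ∑ w ∈ U, T w (oc e ω w)) = ∅ := by
      refine filter_eq_empty_iff.2 fun ω _ => ?_
      rw [not_lt]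
      have h1 : ∑ w ∈ U, T w (oc e ω w) = 0 := sum_eq_zero fun w _ => hT0 w _
      rw [h1]
      positivity
    rw [hemp, card_empty, Nat.cast_zero]
    positivity

end Pool.TCU
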