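import Pool.Agent.Helper93.TCU.Stmts
import Pool.Agent.Helper93.TCU.Bas

/-!
# I2: the influences for the second sum (as `Pool.Agent.Helper3.TCS.I2`)
-/

set_option autoImplicit false
set_option linter.unusedSectionVars false

namespace Pool.TCU

open Pool.TC Pool.TCM Pool.TCS Finset
open scoped Classical

section

variable {V κ : Type} [Fintype V] [Fintype κ] {S : CS V κ} {U : Finset V} {L : V → Finset κ}
  {D l m K : ℕ} {x : ℝ} {q : V → κ → ℝ} {Lam : ℝ}

private theorem I2_KP_card (o o' : V → κ) (t w : V) (b : κ) (ho : ∀ t', t' ≠ t → o t' = o' t') :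
    (KP S U o w b).card ≤ (KP S U o' w b).card + 1 := by
  have h1 : (KP S U o w b).erase t ⊆ KP S U o' w b := by
    intro z hz
    obtain ⟨h1, h2⟩ := mem_erase.1 hz
    unfold KP at h2 ⊢
    rw [mem_filter] at h2 ⊢
    rw [← ho z h1]
    exact h2
  have h2 := card_le_card h1
  have h3 : (KP S U o w b).card - 1 ≤ ((KP S U o w b).erase t).card := pred_card_le_card_erase
  omega

private theorem I2_term (h : Hyp S U L D l m K x q Lam) {w : V} (hw : w ∈ U) {b : κ} (hb : b ∈ L w)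
    (o o' : V → κ) (t : V) (ho : ∀ t', t' ≠ t → o t' = o' t') :
    |Psi2 S U L l m K q o w b - Psi2 S U L l m K q o' w b| ≤ 1 := by
  have h1 := I2_KP_card (S := S) (U := U) o o' t w b ho
  have h2 := I2_KP_card (S := S) (U := U) o' o t w b fun t' ht' => (ho t' ht').symm
  have h1' : ((KP S U o w b).card : ℝ) ≤ (KP S U o' w b).card + 1 := by exact_mod_cast h1
  have h2' : ((KP S U o' w b).card : ℝ) ≤ (KP S U o w b).card + 1 := by exact_mod_cast h2
  have h3 := h.fK_nonneg hw hb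
  have h4 := h.fK_le hw hb
  have h5 := h.bet_pos
  have h6 := h.bet_le'
  have h9 := h.betK
  have h10 : (0 : ℝ) ≤ K := Nat.cast_nonneg _
  have a1 : 0 ≤ min (npair S (KP S U o w b)) (2 * (K : ℝ) ^ 2) :=
    le_min (npair_nonneg _ _) (by positivity)
  have a2 : 0 ≤ min (npair S (KP S U o' w b)) (2 * (K : ℝ) ^ 2) :=
    le_min (npair_nonneg _ _) (by positivity)
  have a3 : min (npair S (KP S U o w b)) (2 * (K : ℝ) ^ 2) ≤ 2 * (K : ℝ) ^ 2 := min_le_right _ _
  have a4 : min (npair S (KP S U o' w b)) (2 * (K : ℝ) ^ 2) ≤ 2 * (K : ℝ) ^ 2 := min_le_right _ _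
  unfold Psi2
  generalize min (npair S (KP S U o w b)) (2 * (K : ℝ) ^ 2) = A at a1 a3 ⊢
  generalize min (npair S (KP S U o' w b)) (2 * (K : ℝ) ^ 2) = A' at a2 a4 ⊢
  generalize ((KP S U o w b).card : ℝ) = k at h1' h2' ⊢
  generalize ((KP S U o' w b).card : ℝ) = k' at h1' h2' ⊢
  generalize fK S U L l m K q w b = ek at h3 h4 ⊢
  generalize bet m K = β at h5 h6 h9 ⊢
  generalize (K : ℝ) = K' at a3 a4 h9 h10
  have e1 : (1 - β) * (1 - β * k + β ^ 2 / 2 * A) * (1 - ek) -
      (1 - β) * (1 - β * k' + β ^ 2 / 2 * A') * (1 - ek) =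
      (-β * (k - k') + β ^ 2 / 2 * (A - A')) * ((1 - β) * (1 - ek)) := by ring
  rw [e1, abs_mul]
  have e2 : |(1 - β) * (1 - ek)| ≤ 1 := by
    rw [abs_le]
    constructor <;> nlinarith
  have e3 : |-β * (k - k') + β ^ 2 / 2 * (A - A')| ≤ 1 := by
    have f1 : |k - k'| ≤ 1 := by
      rw [abs_le]
      constructor <;> linarith
    have f2 : |-β| ≤ 1 / 2 := by
      rw [abs_le]
      constructor <;> linarith
    have f3 : |A - A'| ≤ 2 * K' ^ 2 := by
      rw [abs_le]
      constructor <;> linarith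
    have f4 : β ^ 2 / 2 * (2 * K' ^ 2) ≤ 1 / 2 := by
      have h11 : β ^ 2 / 2 * (2 * K' ^ 2) = (K' * β) ^ 2 := by ring
      have h12 : 0 ≤ K' * β := mul_nonneg h10 h5.le
      have h13 : (K' * β) ^ 2 ≤ 1 / 2 := by nlinarith
      linarith
    calc |-β * (k - k') + β ^ 2 / 2 * (A - A')| ≤
          |-β * (k - k')| + |β ^ 2 / 2 * (A - A')| := abs_add_le _ _
      _ ≤ 1 / 2 * 1 + β ^ 2 / 2 * (2 * K' ^ 2) := by
          rw [abs_mul, abs_mul, abs_of_nonneg (show (0 : ℝ) ≤ β ^ 2 / 2 by positivity)]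
          exact add_le_add (mul_le_mul f2 f1 (abs_nonneg _) (by norm_num))
            (mul_le_mul_of_nonneg_left f3 (by positivity))
      _ ≤ 1 := by linarith
  calc |-β * (k - k') + β ^ 2 / 2 * (A - A')| * |(1 - β) * (1 - ek)| ≤ 1 * 1 :=
        mul_le_mul e3 e2 (abs_nonneg _) zero_le_one
    _ = 1 := one_mul 1

/-- the sets `KP` agree if the changed vertex does not matter -/
private theorem I2_KP_eq (o o' : V → κ) (t w : V) (b : κ) (ho : ∀ t', t' ≠ t → o t' = o' t')
    (h1 : t ∈ U → S.adj w t → o t ≠ b) (h2 : t ∈ U → S.adj w t → o' t ≠ b) :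
    KP S U o w b = KP S U o' w b := by
  unfold KP
  ext z
  rw [mem_filter, mem_filter]
  by_cases hz : z = t
  · subst hz
    constructor
    · rintro ⟨-, h3, h4, h5⟩
      exact absurd h5 (h1 h3 h4)
    · rintro ⟨-, h3, h4, h5⟩
      exact absurd h5 (h2 h3 h4)
  · rw [ho z hz]

private theorem I2_Psi_eq (o o' : V → κ) (w : V) (b : κ) (h : KP S U o w b = KP S U o' w b) :
    Psi2 S U L l m K q o w b = Psi2 S U L l m K q o' w b := by
  unfold Psi2
  rw [h]

end

theorem thm_I2 : St_I2 := by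
  intro V κ _ _ S U L D l m K x q Lam e h he v
  obtain ⟨R, hR⟩ : ∃ R : V → Finset (Fin l), R = fun t => univ.filter fun i =>
    t ∈ U ∧ ∃ w, (w, e t i) ∈ Cv S U L v ∧ S.adj w t := ⟨_, rfl⟩
  have hCv : ∀ p ∈ Cv S U L v, p.1 ∈ U ∧ p.2 ∈ L p.1 ∧ S.r p.1 p.2 = v := by
    intro p hp
    unfold Cv at hp
    exact (mem_filter.1 hp).2
  have hRm : ∀ t i, i ∈ R t ↔ t ∈ U ∧ ∃ w, (w, e t i) ∈ Cv S U L v ∧ S.adj w t := by
    intro t i
    rw [hR]
    simp only [mem_filter, mem_univ, true_and]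
  have hoc : ∀ (w : V) (ω ω' : V → Fin l), (∀ t, t ≠ w → ω t = ω' t) →
      ∀ t', t' ≠ w → oc e ω t' = oc e ω' t' := by
    intro w ω ω' hω t' ht'
    unfold oc
    rw [hω t' ht']
  refine ⟨R, ?_, ?_, ?_, ?_⟩
  · intro t ω ω' hω
    have ho := hoc t ω ω' hω
    rw [← sum_sub_distrib]
    obtain ⟨T, hT⟩ : ∃ T : Finset (V × κ), T = (Cv S U L v).filter fun p =>
      p.2 = oc e ω t ∨ p.2 = oc e ω' t := ⟨_, rfl⟩
    have hTC : T ⊆ Cv S U L v := by rw [hT]; exact filter_subset _ _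
    rw [← sum_subset hTC (by
      intro p hp hpT
      rw [sub_eq_zero]
      apply I2_Psi_eq
      apply I2_KP_eq _ _ t _ _ ho
      · intro _ _ h1
        exact hpT (by rw [hT]; exact mem_filter.2 ⟨hp, Or.inl h1.symm⟩)
      · intro _ _ h1
        exact hpT (by rw [hT]; exact mem_filter.2 ⟨hp, Or.inr h1.symm⟩))]
    have hcard : T.card ≤ 2 := by
      have h1 : T.card ≤ ({oc e ω t, oc e ω' t} : Finset κ).card := by
        refine card_le_card_of_injOn (fun p => p.2) ?_ ?_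
        · intro p hp
          rw [hT] at hp
          have h2 := (mem_filter.1 (mem_coe.1 hp)).2
          rw [mem_coe, mem_insert, mem_singleton]
          exact h2
        · intro p hp p' hp' hpp
          have h1 := (hCv p (hTC hp)).2.2
          have h2 := (hCv p' (hTC hp')).2.2
          have h3 : p.2 = p'.2 := hpp
          refine Prod.ext ?_ h3
          apply S.inj p.1 p'.1 p.2
          rw [h1, h3, h2]
      exact h1.trans card_le_two
    calc |∑ p ∈ T, (Psi2 S U L l m K q (oc e ω) p.1 p.2 -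
          Psi2 S U L l m K q (oc e ω') p.1 p.2)| ≤
        ∑ p ∈ T, |Psi2 S U L l m K q (oc e ω) p.1 p.2 -
          Psi2 S U L l m K q (oc e ω') p.1 p.2| := abs_sum_le_sum_abs _ _
      _ ≤ ∑ p ∈ T, (1 : ℝ) := sum_le_sum fun p hp =>
          I2_term h (hCv p (hTC hp)).1 (hCv p (hTC hp)).2.1 _ _ t ho
      _ = (T.card : ℝ) := by rw [sum_const, nsmul_eq_mul, mul_one]
      _ ≤ 4 := by
        have : (T.card : ℝ) ≤ 2 := by exact_mod_cast hcard
        linarith
  · intro t ω ω' hω h1 h2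
    have ho := hoc t ω ω' hω
    refine sum_congr rfl fun p hp => ?_
    apply I2_Psi_eq
    apply I2_KP_eq _ _ t _ _ ho
    · intro htU hadj hot
      apply h1
      rw [hRm]
      refine ⟨htU, p.1, ?_, hadj⟩
      have h3 : e t (ω t) = p.2 := hot
      rw [h3]
      exact hp
    · intro htU hadj hot
      apply h2
      rw [hRm]
      refine ⟨htU, p.1, ?_, hadj⟩
      have h3 : e t (ω' t) = p.2 := hot
      rw [h3]
      exact hp
  · have h1 : ∀ t, (R t).card ≤ ((Cv S U L v).filter fun p => t ∈ Pn S U L p.1 p.2).card := by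
      intro t
      have : Nonempty V := ⟨t⟩
      choose! f hf using fun i (hi : i ∈ R t) => ((hRm t i).1 hi).2
      refine card_le_card_of_injOn (fun i => (f i, e t i)) ?_ ?_
      · intro i hi
        obtain ⟨h2, h3⟩ := hf i (mem_coe.1 hi)
        have htU := ((hRm t i).1 (mem_coe.1 hi)).1
        rw [mem_coe, mem_filter]
        refine ⟨h2, ?_⟩
        unfold Pn
        rw [mem_filter]
        refine ⟨mem_univ _, htU, h3, ?_⟩
        exact (he.mem t htU _).2 ⟨i, rfl⟩
      · intro i hi j hj hij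
        have htU := ((hRm t i).1 (mem_coe.1 hi)).1
        exact he.inj t htU (congrArg Prod.snd hij)
    have h2 : ∑ t, (R t).card ≤ ∑ p ∈ Cv S U L v, (Pn S U L p.1 p.2).card := by
      refine (sum_le_sum fun t _ => h1 t).trans (le_of_eq ?_)
      simp only [card_filter]
      rw [sum_comm]
      refine sum_congr rfl fun p _ => ?_
      rw [sum_boole]
      simp
    have h3 : (∑ t, ((R t).card : ℝ)) ≤ ∑ p ∈ Cv S U L v, ((Pn S U L p.1 p.2).card : ℝ) := by
      exact_mod_cast h2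
    have h4 : ∑ p ∈ Cv S U L v, ((Pn S U L p.1 p.2).card : ℝ) ≤
        ∑ p ∈ Cv S U L v, (2 * (l : ℝ)) := sum_le_sum fun p hp =>
      h.Pn2 (hCv p hp).1 (hCv p hp).2.1
    have h5 := h.Cv2 v
    have h6 := h.lpos
    rw [sum_const, nsmul_eq_mul] at h4
    have h7 : ((Cv S U L v).card : ℝ) * (2 * l) ≤ 2 * l * (2 * l) :=
      mul_le_mul_of_nonneg_right h5 (by positivity)
    nlinarith
  · rintro t ⟨i, hi⟩
    obtain ⟨htU, w, hw, hadj⟩ := (hRm t i).1 hi
    have h1 := (hCv _ hw).2.2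
    refine ⟨t, ⟨w, ⟨v, rfl, Or.inr (Or.inr (Or.inr ⟨_, h1⟩))⟩, Or.inr (Or.inl hadj)⟩, Or.inl rfl⟩

end Pool.TCU
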